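import Mathlib

set_option autoImplicit false

/-!
# TA64/NB: tails of the negative binomial law `P(i) = C(i + n, n) r^i (1 - r)^(n + 1)`, `r = e^(-s)`
-/

namespace Pool.TA64

open Real

theorem exp_sub_one_pos {u : ℝ} (hu : 0 < u) : 0 < exp u - 1 := by
  have := add_one_lt_exp hu.ne'
  linarith

/-- `u² e^u ≤ (e^u - 1)²` -/
theorem sq_mul_exp_le {u : ℝ} (hu : 0 < u) : u ^ 2 * exp u ≤ (exp u - 1) ^ 2 := by
  have h1 : u / 2 ≤ sinh (u / 2) := self_le_sinh_iff.mpr (by linarith)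
  rw [sinh_eq] at h1
  have h2 : exp (u / 2) * exp (-(u / 2)) = 1 := by rw [← exp_add]; simp
  have h3 : exp (u / 2) * exp (u / 2) = exp u := by rw [← exp_add]; congr 1; ring
  have h4 : u * exp (u / 2) ≤ exp u - 1 := by
    have h5 : 0 < exp (u / 2) := exp_pos _
    have h6 : u ≤ exp (u / 2) - exp (-(u / 2)) := by linarith
    calc u * exp (u / 2) ≤ (exp (u / 2) - exp (-(u / 2))) * exp (u / 2) :=
          mul_le_mul_of_nonneg_right h6 h5.le
      _ = exp (u / 2) * exp (u / 2) - exp (u / 2) * exp (-(u / 2)) := by ring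
      _ = exp u - 1 := by rw [h3, h2]
  have h7 : 0 ≤ u * exp (u / 2) := by positivity
  calc u ^ 2 * exp u = (u * exp (u / 2)) ^ 2 := by rw [← h3]; ring
    _ ≤ (exp u - 1) ^ 2 := by gcongr

/-- `k u = 1/u - 1/(e^u - 1)` is antitone on `(0, ∞)` -/
theorem k_anti {a b : ℝ} (ha : 0 < a) (hab : a ≤ b) :
    (exp a - 1)⁻¹ - (exp b - 1)⁻¹ ≤ a⁻¹ - b⁻¹ := by
  have hder : ∀ u ∈ Set.Ioi (0 : ℝ), HasDerivAt (fun u : ℝ => u⁻¹ - (exp u - 1)⁻¹)
      (-(u ^ 2)⁻¹ - (-(exp u) / (exp u - 1) ^ 2)) u := by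
    intro u hu
    have hu' : 0 < u := hu
    have h1 : HasDerivAt (fun u : ℝ => u⁻¹) (-(u ^ 2)⁻¹) u := hasDerivAt_inv hu'.ne'
    have h2 : HasDerivAt (fun u : ℝ => exp u - 1) (exp u) u := (hasDerivAt_exp u).sub_const 1
    have h3 := h2.inv (exp_sub_one_pos hu').ne'
    exact h1.sub h3
  have hanti : AntitoneOn (fun u : ℝ => u⁻¹ - (exp u - 1)⁻¹) (Set.Ioi 0) := by
    refine antitoneOn_of_deriv_nonpos (convex_Ioi 0)
      (fun u hu => (hder u hu).continuousAt.continuousWithinAt)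
      (fun u hu => ((hder u (interior_subset hu)).differentiableAt).differentiableWithinAt) ?_
    intro u hu
    have hu0 : u ∈ Set.Ioi (0 : ℝ) := interior_subset hu
    have hu' : 0 < u := hu0
    rw [(hder u hu0).deriv]
    have h1 := sq_mul_exp_le hu'
    have h2 : 0 < (exp u - 1) ^ 2 := by have := exp_sub_one_pos hu'; positivity
    have h3 : exp u / (exp u - 1) ^ 2 ≤ (u ^ 2)⁻¹ := by
      rw [div_le_iff₀ h2, inv_mul_eq_div, le_div_iff₀ (by positivity)]
      linarith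
    have h4 : -(exp u) / (exp u - 1) ^ 2 = -(exp u / (exp u - 1) ^ 2) := by ring
    rw [h4]
    linarith
  have := hanti (Set.mem_Ioi.mpr ha) (Set.mem_Ioi.mpr (lt_of_lt_of_le ha hab)) hab
  simp only at this
  linarith

/-- the moment generating function -/
theorem mgf_key {s u : ℝ} (hs : 0 < s) (hu : s / 2 ≤ u) :
    1 - exp (-s) ≤ (1 - exp (-u)) * exp ((s - u) / (exp s - 1) + (s - u) ^ 2 / s ^ 2) := by
  have hu0 : 0 < u := by linarith
  have hpos : ∀ v : ℝ, 0 < v → 0 < 1 - exp (-v) := fun v hv => by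
    have : exp (-v) < 1 := Real.exp_lt_one_iff.mpr (by linarith)
    linarith
  set G : ℝ → ℝ := fun v => log (1 - exp (-v)) + ((s - v) * (exp s - 1)⁻¹ + (s - v) ^ 2 / s ^ 2) with hG
  have hder : ∀ v ∈ Set.Ioi (0 : ℝ), HasDerivAt G
      ((exp v - 1)⁻¹ + (-(exp s - 1)⁻¹ + -(2 * (s - v) / s ^ 2))) v := by
    intro v hv
    have hv' : 0 < v := hv
    have h1 : HasDerivAt (fun v : ℝ => 1 - exp (-v)) (exp (-v)) v := by
      have h := ((hasDerivAt_neg v).exp).const_sub 1
      simpa using h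
    have h2 := h1.log (hpos v hv').ne'
    have h3 : exp (-v) / (1 - exp (-v)) = (exp v - 1)⁻¹ := by
      have h4 : exp (-v) * exp v = 1 := by rw [← exp_add]; simp
      have h5 := exp_sub_one_pos hv'
      rw [div_eq_iff (hpos v hv').ne', inv_mul_eq_div, eq_div_iff h5.ne']
      linear_combination h4
    rw [h3] at h2
    have h6 : HasDerivAt (fun v : ℝ => (s - v) * (exp s - 1)⁻¹) (-(exp s - 1)⁻¹) v := by
      have h := ((hasDerivAt_id v).const_sub s).mul_const (exp s - 1)⁻¹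
      simpa using h
    have h7 : HasDerivAt (fun v : ℝ => (s - v) ^ 2 / s ^ 2) (-(2 * (s - v) / s ^ 2)) v := by
      have h := (((hasDerivAt_id v).const_sub s).pow 2).div_const (s ^ 2)
      refine h.congr_deriv ?_
      simp only [id]
      ring
    exact h2.add (h6.add h7)
  have hGs : G s = log (1 - exp (-s)) := by simp [hG]
  have hmain : G s ≤ G u := by
    rcases le_total u s with hus | hsu
    · -- antitone on [u, s]
      have hanti : AntitoneOn G (Set.Icc u s) := by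
        refine antitoneOn_of_deriv_nonpos (convex_Icc u s)
          (fun v hv => (hder v (lt_of_lt_of_le hu0 hv.1)).continuousAt.continuousWithinAt)
          (fun v hv => ((hder v (lt_of_lt_of_le hu0 (interior_subset hv).1)).differentiableAt).differentiableWithinAt) ?_
        intro v hv
        have hv1 : v ∈ Set.Icc u s := interior_subset hv
        have hv0 : 0 < v := lt_of_lt_of_le hu0 hv1.1
        rw [(hder v hv0).deriv]
        have h1 := k_anti hv0 hv1.2
        have h2 : v⁻¹ - s⁻¹ ≤ 2 * (s - v) / s ^ 2 := by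
          have h3 : v⁻¹ - s⁻¹ = (s - v) / (v * s) := by field_simp
          rw [h3, div_le_div_iff₀ (by positivity) (by positivity)]
          have h4 : 0 ≤ s - v := by linarith [hv1.2]
          have h5 : s ≤ 2 * v := by linarith [hv1.1]
          nlinarith [mul_nonneg h4 hs.le, mul_nonneg (mul_nonneg h4 hs.le) (by linarith : 0 ≤ 2 * v - s)]
        linarith
      exact hanti (Set.left_mem_Icc.mpr hus) (Set.right_mem_Icc.mpr hus) hus
    · have hmono : MonotoneOn G (Set.Icc s u) := by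
        refine monotoneOn_of_deriv_nonneg (convex_Icc s u)
          (fun v hv => (hder v (lt_of_lt_of_le hs hv.1)).continuousAt.continuousWithinAt)
          (fun v hv => ((hder v (lt_of_lt_of_le hs (interior_subset hv).1)).differentiableAt).differentiableWithinAt) ?_
        intro v hv
        have hv1 : v ∈ Set.Icc s u := interior_subset hv
        have hv0 : 0 < v := lt_of_lt_of_le hs hv1.1
        rw [(hder v hv0).deriv]
        have h1 := k_anti hs hv1.1
        have h2 : s⁻¹ - v⁻¹ ≤ 2 * (v - s) / s ^ 2 := by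
          have h3 : s⁻¹ - v⁻¹ = (v - s) / (s * v) := by field_simp
          rw [h3, div_le_div_iff₀ (by positivity) (by positivity)]
          have h4 : 0 ≤ v - s := by linarith [hv1.1]
          have h5 : s ≤ v := hv1.1
          nlinarith [mul_nonneg h4 hs.le, mul_nonneg (mul_nonneg h4 hs.le) (by linarith : 0 ≤ 2 * v - s)]
        have h6 : -(2 * (s - v) / s ^ 2) = 2 * (v - s) / s ^ 2 := by ring
        rw [h6]
        linarith
      exact hmono (Set.left_mem_Icc.mpr hsu) (Set.right_mem_Icc.mpr hsu) hsu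
  rw [hGs] at hmain
  have h1 := exp_le_exp.mpr hmain
  rw [exp_log (hpos s hs)] at h1
  refine h1.trans (le_of_eq ?_)
  rw [hG]
  simp only
  rw [exp_add, exp_log (hpos u hu0), div_eq_mul_inv (s - u) (exp s - 1)]

/-- the law -/
noncomputable def nb (n : ℕ) (s : ℝ) (i : ℕ) : ℝ :=
  ((i + n).choose n : ℝ) * exp (-s) ^ i * (1 - exp (-s)) ^ (n + 1)

theorem nb_nonneg (n : ℕ) {s : ℝ} (hs : 0 < s) (i : ℕ) : 0 ≤ nb n s i := by
  have : exp (-s) < 1 := Real.exp_lt_one_iff.mpr (by linarith)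
  have h : 0 ≤ 1 - exp (-s) := by linarith
  unfold nb
  positivity

theorem hasSum_nb (n : ℕ) {s : ℝ} (hs : 0 < s) : HasSum (nb n s) 1 := by
  have h1 : exp (-s) < 1 := Real.exp_lt_one_iff.mpr (by linarith)
  have h0 := exp_pos (-s)
  have h := hasSum_choose_mul_geometric_of_norm_lt_one n (r := exp (-s))
    (by rw [Real.norm_eq_abs, abs_of_pos h0]; exact h1)
  have h2 := h.mul_right ((1 - exp (-s)) ^ (n + 1))
  have h3 : 1 / (1 - exp (-s)) ^ (n + 1) * (1 - exp (-s)) ^ (n + 1) = 1 := by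
    have : (1 - exp (-s)) ^ (n + 1) ≠ 0 := pow_ne_zero _ (by linarith)
    field_simp
  rw [h3] at h2
  exact h2

/-- tilting: `nb s` against `nb u` -/
theorem nb_tilt (n : ℕ) {s u : ℝ} (hs : 0 < s) (hu : s / 2 ≤ u) (i : ℕ) :
    nb n s i ≤ nb n u i * exp (-((s - u) * i)) *
      exp ((n + 1) * ((s - u) / (exp s - 1) + (s - u) ^ 2 / s ^ 2)) := by
  have hu0 : 0 < u := by linarith
  have h1 : 0 ≤ 1 - exp (-s) := by
    have : exp (-s) < 1 := Real.exp_lt_one_iff.mpr (by linarith)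
    linarith
  have h2 := pow_le_pow_left₀ h1 (mgf_key hs hu) (n + 1)
  rw [mul_pow, ← exp_nat_mul] at h2
  have h3 : exp (-s) ^ i = exp (-u) ^ i * exp (-((s - u) * i)) := by
    rw [← exp_nat_mul, ← exp_nat_mul, ← exp_add]
    congr 1
    ring
  have h4 : (((n + 1 : ℕ) : ℝ)) * ((s - u) / (exp s - 1) + (s - u) ^ 2 / s ^ 2) =
      (n + 1) * ((s - u) / (exp s - 1) + (s - u) ^ 2 / s ^ 2) := by push_cast; ring
  rw [h4] at h2
  unfold nb
  calc ((i + n).choose n : ℝ) * exp (-s) ^ i * (1 - exp (-s)) ^ (n + 1)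
      ≤ ((i + n).choose n : ℝ) * exp (-s) ^ i * ((1 - exp (-u)) ^ (n + 1) *
        exp ((n + 1) * ((s - u) / (exp s - 1) + (s - u) ^ 2 / s ^ 2))) :=
        mul_le_mul_of_nonneg_left h2 (by positivity)
    _ = _ := by rw [h3]; ring

/-- UPPER TAIL -/
theorem nb_up (n : ℕ) {s τ Λ : ℝ} (hs : 0 < s) (hτ0 : 0 ≤ τ) (hτ1 : τ ≤ 1 / 2) :
    ∑' i : ℕ, (if (n + 1) / (exp s - 1) + Λ ≤ (i : ℝ) then nb n s i else 0) ≤
      exp (-(τ * s * Λ) + (n + 1) * τ ^ 2) := by
  set u := s - τ * s with hu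
  have hus : s / 2 ≤ u := by rw [hu]; nlinarith
  have hu0 : 0 < u := by linarith
  have hsu : s - u = τ * s := by rw [hu]; ring
  have hsum := hasSum_nb n hu0
  have hle : ∀ i : ℕ, (if (n + 1) / (exp s - 1) + Λ ≤ (i : ℝ) then nb n s i else 0) ≤
      nb n u i * exp (-(τ * s * Λ) + (n + 1) * τ ^ 2) := by
    intro i
    split_ifs with h
    · refine (nb_tilt n hs hus i).trans ?_
      rw [hsu, mul_assoc, ← exp_add]
      refine mul_le_mul_of_nonneg_left ?_ (nb_nonneg n hu0 i)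
      rw [exp_le_exp]
      have h5 : τ * s * ((n + 1) / (exp s - 1) + Λ) ≤ τ * s * i :=
        mul_le_mul_of_nonneg_left h (by positivity)
      have h6 : (τ * s) ^ 2 / s ^ 2 = τ ^ 2 := by field_simp
      rw [h6]
      have h7 : (n + 1 : ℝ) * (τ * s / (exp s - 1)) = τ * s * ((n + 1) / (exp s - 1)) := by ring
      nlinarith
    · exact mul_nonneg (nb_nonneg n hu0 i) (exp_pos _).le
  have h1 := hsum.mul_right (exp (-(τ * s * Λ) + (n + 1) * τ ^ 2))
  rw [one_mul] at h1
  have hsm : Summable fun i : ℕ => (if (n + 1) / (exp s - 1) + Λ ≤ (i : ℝ) then nb n s i else 0) := by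
    refine Summable.of_nonneg_of_le (fun i => ?_) hle h1.summable
    split_ifs
    · exact nb_nonneg n hs i
    · exact le_rfl
  exact (hsm.tsum_le_tsum hle h1.summable).trans h1.tsum_eq.le

/-- LOWER TAIL -/
theorem nb_dn (n : ℕ) {s τ Λ : ℝ} (hs : 0 < s) (hτ0 : 0 ≤ τ) :
    ∑' i : ℕ, (if (i : ℝ) ≤ (n + 1) / (exp s - 1) - Λ then nb n s i else 0) ≤
      exp (-(τ * s * Λ) + (n + 1) * τ ^ 2) := by
  set u := s + τ * s with hu
  have hus : s / 2 ≤ u := by rw [hu]; nlinarith [mul_nonneg hτ0 hs.le]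
  have hu0 : 0 < u := by linarith
  have hsu : s - u = -(τ * s) := by rw [hu]; ring
  have hsum := hasSum_nb n hu0
  have hle : ∀ i : ℕ, (if (i : ℝ) ≤ (n + 1) / (exp s - 1) - Λ then nb n s i else 0) ≤
      nb n u i * exp (-(τ * s * Λ) + (n + 1) * τ ^ 2) := by
    intro i
    split_ifs with h
    · refine (nb_tilt n hs hus i).trans ?_
      rw [hsu, mul_assoc, ← exp_add]
      refine mul_le_mul_of_nonneg_left ?_ (nb_nonneg n hu0 i)
      rw [exp_le_exp]
      have h5 : τ * s * i ≤ τ * s * ((n + 1) / (exp s - 1) - Λ) :=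
        mul_le_mul_of_nonneg_left h (by positivity)
      have h6 : (-(τ * s)) ^ 2 / s ^ 2 = τ ^ 2 := by field_simp
      rw [h6]
      have h7 : (n + 1 : ℝ) * (-(τ * s) / (exp s - 1)) = -(τ * s * ((n + 1) / (exp s - 1))) := by ring
      nlinarith
    · exact mul_nonneg (nb_nonneg n hu0 i) (exp_pos _).le
  have h1 := hsum.mul_right (exp (-(τ * s * Λ) + (n + 1) * τ ^ 2))
  rw [one_mul] at h1
  have hsm : Summable fun i : ℕ => (if (i : ℝ) ≤ (n + 1) / (exp s - 1) - Λ then nb n s i else 0) := by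
    refine Summable.of_nonneg_of_le (fun i => ?_) hle h1.summable
    split_ifs
    · exact nb_nonneg n hs i
    · exact le_rfl
  exact (hsm.tsum_le_tsum hle h1.summable).trans h1.tsum_eq.le

/-- the exponent for `Λ = 7 √(n log n)/s`, `τ = 2 √(log n / n)` -/
theorem expo_le {n : ℕ} {s τ : ℝ} (hs : 0 < s) (hn : 4 ≤ n) (hτ : τ = 2 * √(log n / n)) :
    exp (-(τ * s * (7 * √(n * log n) / s)) + (n + 1) * τ ^ 2) ≤ ((n : ℝ) ^ 5)⁻¹ := by
  have hn0 : (0 : ℝ) < n := by
    have : (4 : ℝ) ≤ n := by exact_mod_cast hn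
    linarith
  have hn4 : (4 : ℝ) ≤ n := by exact_mod_cast hn
  have hlog : 0 ≤ log n := log_nonneg (by linarith)
  have h1 : √(log n / n) * √(n * log n) = log n := by
    rw [← sqrt_mul (by positivity)]
    have : log n / n * (n * log n) = log n ^ 2 := by field_simp
    rw [this, sqrt_sq hlog]
  have h2 : τ * s * (7 * √(n * log n) / s) = 14 * log n := by
    rw [hτ]
    have : 2 * √(log n / n) * s * (7 * √(n * log n) / s) = 14 * (√(log n / n) * √(n * log n)) * (s / s) := by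
      ring
    rw [this, h1, div_self hs.ne', mul_one]
  have h3 : τ ^ 2 = 4 * (log n / n) := by
    rw [hτ, mul_pow, sq_sqrt (by positivity)]
    ring
  rw [h2, h3]
  have h4 : (n + 1 : ℝ) * (4 * (log n / n)) ≤ 9 * log n := by
    have h5 : (n + 1 : ℝ) * (4 * (log n / n)) = 4 * log n * ((n + 1) / n) := by ring
    have h6 : (n + 1 : ℝ) / n ≤ 5 / 4 := by
      rw [div_le_div_iff₀ hn0 (by norm_num)]
      linarith
    rw [h5]
    nlinarith
  have h7 : ((n : ℝ) ^ 5)⁻¹ = exp (-(5 * log n)) := by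
    rw [exp_neg]
    congr 1
    have : (5 : ℝ) * log n = ((5 : ℕ) : ℝ) * log n := by norm_num
    rw [this, exp_nat_mul, exp_log hn0]
  rw [h7, exp_le_exp]
  linarith

theorem nb_up' {n : ℕ} {s : ℝ} (hs : 0 < s) (hn : 4 ≤ n) (hn2 : 16 * log n ≤ n) :
    ∑' i : ℕ, (if (n + 1) / (exp s - 1) + 7 * √(n * log n) / s ≤ (i : ℝ) then nb n s i else 0) ≤
      ((n : ℝ) ^ 5)⁻¹ := by
  have hn4 : (4 : ℝ) ≤ n := by exact_mod_cast hn
  refine (nb_up n hs (τ := 2 * √(log n / n)) (by positivity) ?_).trans (expo_le hs hn rfl)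
  have h1 : log n / n ≤ (1 / 4) ^ 2 := by
    rw [div_le_iff₀ (by linarith)]
    linarith
  have h2 : √(log n / n) ≤ 1 / 4 := by
    rw [show (1 / 4 : ℝ) = √((1 / 4) ^ 2) by rw [sqrt_sq (by norm_num)]]
    exact sqrt_le_sqrt h1
  linarith

theorem nb_dn' {n : ℕ} {s : ℝ} (hs : 0 < s) (hn : 4 ≤ n) :
    ∑' i : ℕ, (if (i : ℝ) ≤ (n + 1) / (exp s - 1) - 7 * √(n * log n) / s then nb n s i else 0) ≤
      ((n : ℝ) ^ 5)⁻¹ :=
  (nb_dn n hs (τ := 2 * √(log n / n)) (by positivity)).trans (expo_le hs hn rfl)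

end Pool.TA64
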